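import Pool.Agent.P.MP_08fd93_co.FE.KS

/-! A cell with an inner vertex that sees the first lower corner, the last upper corner and the
lower path. -/

set_option autoImplicit false

namespace Pool.Agent.P.MP_08fd93_co.FH

open OV FU FB FE

variable {W : Type} {H : SimpleGraph W} {d dL dR : DD W} {u t f x ql : W}
  {A B C S Y0 : Set (Sym2 W)} {K : Set W}

/-- At most two edges. -/
def Tw (S : Set (Sym2 W)) : Prop := ∃ e e', S ⊆ {e, e'}

theorem Tw.three (h : Tw S) {e1 e2 e3 : Sym2 W} (m1 : e1 ∈ S) (m2 : e2 ∈ S) (m3 : e3 ∈ S)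
    (n1 : e1 ≠ e2) (n2 : e1 ≠ e3) (n3 : e2 ≠ e3) : False := by
  obtain ⟨a, b, k⟩ := h
  rcases k m1 with r1 | r1 <;> rcases k m2 with r2 | r2 <;> rcases k m3 with r3 | r3
  exacts [n1 (r1.trans r2.symm), n1 (r1.trans r2.symm), n2 (r1.trans r3.symm),
    n3 (Eq.trans r2 (Eq.symm r3)), n3 (r2.trans r3.symm), n2 (Eq.trans r1 (Eq.symm r3)),
    n1 (Eq.trans r1 (Eq.symm r2)), n1 (Eq.trans r1 (Eq.symm r2))]

theorem tw_pair (e e' : Sym2 W) : Tw {e, e'} := ⟨e, e', subset_rfl⟩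

theorem tw_one (e : Sym2 W) : Tw {e} := ⟨e, e, fun _ k => Or.inl k⟩

theorem Tw.mono (h : Tw S) {S' : Set (Sym2 W)} (s : S' ⊆ S) : Tw S' :=
  let ⟨a, b, k⟩ := h
  ⟨a, b, s.trans k⟩

theorem pe_sub {X X' : Set W} {e : Sym2 W} (he : e ∈ PE H X) (k : ∀ x ∈ e, x ∈ X') :
    e ∈ PE H X' := by
  obtain ⟨a, -, b, -, g, rfl⟩ := he
  exact mem_PE.2 ⟨k a (Sym2.mem_mk_left _ _), k b (Sym2.mem_mk_right _ _), g⟩

/-- A disc with a diagonal rung: two edges above, two edges on each side of a further rung. -/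
theorem diag (hP : Pl H Set.univ) (T : TA H) (D : Disc H d) (r : H.Adj d.a d.b') (ht : t ∈ d.X)
    (rt : H.Adj t d.b') (sA : A ⊆ PE H d.X) (sB : B ⊆ PE H d.X) (sY : Y0 ⊆ PE H d.Y)
    (tA : Tw A) (tB : Tw B) (tY : Tw Y0) (kA : ∀ e ∈ A, ∀ x ∈ e, d.ρ x ≤ d.ρ t)
    (kB : ∀ e ∈ B, ∀ x ∈ e, d.ρ t ≤ d.ρ x) : ∃ o, Out H d (Y0 ∪ (A ∪ B)) o := by
  have sX : A ∪ B ⊆ PE H d.X := Set.union_subset sA sB
  have yx : ∀ e ∈ Y0, ∀ e' ∈ A ∪ B, SS H d e e' := fun e m e' m' =>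
    Or.inl ⟨d.a, D.px.ha, d.b', D.py.hb, r,
      fun z k => Or.inr ⟨PE.ends (sY m) k, D.py.hi _ (PE.ends (sY m) k)⟩,
      fun z k => Or.inl ⟨PE.ends (sX m') k, D.px.lo _ (PE.ends (sX m') k)⟩⟩
  have ab : ∀ e ∈ A, ∀ e' ∈ B, SS H d e e' := fun e m e' m' =>
    Or.inl ⟨t, ht, d.b', D.py.hb, rt, fun z k => Or.inl ⟨PE.ends (sA m) k, kA e m z k⟩,
      fun z k => Or.inl ⟨PE.ends (sB m') k, kB e' m' z k⟩⟩
  refine tp hP T D ⟨fun e m => m.elim (fun k => Or.inr (sY k)) fun k => Or.inl (sX k), ?_, ?_⟩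
  · rintro e (m | m) e' (m' | m') -
    · refine Or.inr (Or.inr (Or.inl ⟨d.a', D.py.ha, d.b', D.py.hb, d.a, D.px.ha, D.ra.symm,
        r.symm, fun z k => ?_⟩))
      have q : z ∈ d.Y := k.elim (PE.ends (sY m)) (PE.ends (sY m'))
      exact ⟨q, D.py.lo z q, D.py.hi z q⟩
    · exact Or.inl (yx e m e' m')
    · exact Or.inl (yx e' m' e m).symm
    · refine Or.inr (Or.inl (Or.inl ⟨d.a, D.px.ha, d.b, D.px.hb, d.b', D.py.hb, r, D.rb,
        fun z k => ?_⟩))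
      have q : z ∈ d.X := k.elim (PE.ends (sX m)) (PE.ends (sX m'))
      exact ⟨q, D.px.lo z q, D.px.hi z q⟩
  · rintro e1 (m1 | m1) e2 (m2 | m2) e3 (m3 | m3) n1 n2 n3
    · exact (tY.three m1 m2 m3 n1 n2 n3).elim
    · exact Or.inr (Or.inl (yx _ m1 _ m3))
    · exact Or.inl (yx _ m1 _ m2)
    · exact Or.inl (yx _ m1 _ m2)
    · exact Or.inl (yx _ m2 _ m1).symm
    · exact Or.inl (yx _ m2 _ m1).symm
    · exact Or.inr (Or.inl (yx _ m3 _ m1).symm)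
    · rcases m1 with m1 | m1 <;> rcases m2 with m2 | m2 <;> rcases m3 with m3 | m3
      exacts [(tA.three m1 m2 m3 n1 n2 n3).elim, Or.inr (Or.inl (ab _ m1 _ m3)),
        Or.inl (ab _ m1 _ m2), Or.inl (ab _ m1 _ m2), Or.inl (ab _ m2 _ m1).symm,
        Or.inl (ab _ m2 _ m1).symm, Or.inr (Or.inl (ab _ m3 _ m1).symm),
        (tB.three m1 m2 m3 n1 n2 n3).elim]

/-- an edge on top, at most one strict edge below -/
theorem ox_le1 (T : TA H) (D : Disc H d) (st : H.Adj d.a' d.b') (s : S ⊆ PE H d.X)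
    (one : S.Subsingleton) :
    ∃ X' P, OutX H d S X' P fun c Q => c d.a' = c d.b' ∨ d.a' ∈ Q ∨ d.b' ∈ Q := by
  rcases S.eq_empty_or_nonempty with rfl | ⟨e, he⟩
  · obtain ⟨X', P, h⟩ := ox_e0 T D st
    exact ⟨X', P, h.imp' fun _ _ _ _ => trivial⟩
  · obtain ⟨X', P, h⟩ := ox_e1 T D st (s he)
    exact ⟨X', P, h.mono fun f hf => one hf he⟩

/-- an edge on top, at most two strict edges below -/
theorem ox_le2 (hP : Pl H Set.univ) (T : TA H) (D : Disc H d) (st : H.Adj d.a' d.b')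
    (s : S ⊆ PE H d.X) (two : Tw S) :
    ∃ X' P, OutX H d S X' P fun c Q => c d.a' = c d.b' ∨ (d.a' ∈ Q ∧ d.b' ∈ Q) := by
  by_cases one : S.Subsingleton
  · obtain ⟨X', P, h⟩ := ox_le1 T D st s one
    exact ⟨X', P, h.imp' fun _ _ _ k => k.imp_right fun m => Or.inl m.1⟩
  obtain ⟨e, he, e', he', n⟩ := Set.not_subsingleton_iff.1 one
  obtain ⟨X', P, h⟩ := ox_e2 hP T D st (s he) (s he')
  refine ⟨X', P, h.mono fun g hg => ?_⟩
  by_contra q
  exact two.three he he' hg n (fun r => q (Or.inl r.symm)) fun r => q (Or.inr r.symm)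

/-- The inner vertex `u` sees the first lower corner, the last upper corner and `t`, `f` below;
`A`, `B`, `C` are edges before `t`, between `t` and `f`, after `f`. -/
structure HU (H : SimpleGraph W) (d : DD W) (u t f : W) (A B C : Set (Sym2 W)) : Prop where
  disc : Disc H d
  hu : u ∈ d.I
  ua : H.Adj u d.a
  ub : H.Adj u d.b'
  ht : t ∈ d.X
  hf : f ∈ d.X
  ut : H.Adj u t
  uf : H.Adj u f
  tf : d.ρ t ≤ d.ρ f
  nf : ¬ H.Adj f d.b'
  sA : A ⊆ PE H d.X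
  sB : B ⊆ PE H d.X
  sC : C ⊆ PE H d.X
  tA : Tw A
  tB : Tw B
  kA : ∀ e ∈ A, ∀ x ∈ e, d.ρ x ≤ d.ρ t
  kB : ∀ e ∈ B, ∀ x ∈ e, d.ρ t ≤ d.ρ x ∧ d.ρ x ≤ d.ρ f
  kC : ∀ e ∈ C, ∀ x ∈ e, d.ρ f ≤ d.ρ x

theorem HU.cut (hP : Pl H Set.univ) (h : HU H d u t f A B C) :
    ∃ ql dL dR K, Cut H d u f ql d.b' dL dR K := by
  have D := h.disc
  obtain ⟨ql, qj, k⟩ := exists_hub D h.hu h.hf h.uf D.py.hb h.ub fun _ => h.nf
  obtain rfl : qj = d.b' :=
    D.py.inj _ k.hj _ D.py.hb (le_antisymm (D.py.hi _ k.hj) (k.ex _ D.py.hb h.ub).2)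
  obtain ⟨dL, dR, K, c⟩ := k.cut hP
  exact ⟨ql, dL, dR, K, c⟩

theorem HU.subL (h : HU H d u t f A B C) (c : Cut H d u f ql d.b' dL dR K) :
    A ∪ B ⊆ PE H dL.X := by
  have := h.tf
  rintro e (m | m)
  · exact pe_sub (h.sA m) fun z k => (c.l.eX z).2 ⟨PE.ends (h.sA m) k, (h.kA e m z k).trans h.tf⟩
  · exact pe_sub (h.sB m) fun z k => (c.l.eX z).2 ⟨PE.ends (h.sB m) k, (h.kB e m z k).2⟩

theorem HU.subR (h : HU H d u t f A B C) (c : Cut H d u f ql d.b' dL dR K) : C ⊆ PE H dR.X :=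
  fun e m => pe_sub (h.sC m) fun z k => (c.r.eX z).2 ⟨PE.ends (h.sC m) k, h.kC e m z k⟩

theorem HU.left (hP : Pl H Set.univ) (T : TA H) (h : HU H d u t f A B C)
    (c : Cut H d u f ql d.b' dL dR K) (sY : Y0 ⊆ PE H dL.Y) (tY : Tw Y0) :
    ∃ o, Out H dL (Y0 ∪ (A ∪ B)) o := by
  have s := h.subL c
  have r : ∀ z ∈ d.X, dL.ρ z = d.ρ z := fun z k => c.l.eρ z (c.nu' k)
  refine diag hP T c.l.disc (t := t) (by rw [c.l.ea, c.l.eb']; exact h.ua.symm)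
    ((c.l.eX t).2 ⟨h.ht, h.tf⟩) (by rw [c.l.eb']; exact h.ut.symm)
    (fun e m => s (Or.inl m)) (fun e m => s (Or.inr m)) sY h.tA h.tB tY
    (fun e m z k => ?_) fun e m z k => ?_
  · rw [r z (PE.ends (h.sA m) k), r t h.ht]
    exact h.kA e m z k
  · rw [r z (PE.ends (h.sB m) k), r t h.ht]
    exact (h.kB e m z k).1

theorem HU.topR (h : HU H d u t f A B C) (c : Cut H d u f ql d.b' dL dR K) :
    H.Adj dR.a' dR.b' := by
  rw [c.r.ea', c.r.eb']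
  exact h.ub

/-- an edge on top -/
theorem HU.triv (hP : Pl H Set.univ) (T : TA H) (h : HU H d u t f A B C) (st : H.Adj d.a' d.b')
    (β : Prop) (hC : (β ∧ Tw C) ∨ (¬ β ∧ C.Subsingleton)) :
    ∃ X' P, OutX H d (A ∪ B ∪ C) X' P fun c Q =>
      (β → d.b' ∈ Q) ∧ (¬ H.Adj u d.a' ∨ c d.a' = c d.b' ∨ d.b' ∈ Q) := by
  classical
  have D := h.disc
  obtain ⟨ql, dL, dR, K, c⟩ := h.cut hP
  have eY := D.py.eq_pair st
  have cq : ql = d.a' ∨ ql = d.b' := by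
    have := c.hub.hl
    rwa [eY] at this
  have lt : d.ρ d.a' < d.ρ d.b' := D.py.lo_lt D.py.hb st.ne'
  have yl : ∀ y ∈ dL.Y, y = d.a' ∨ y = ql ∨ y = u := fun y m => by
    rcases (c.l.eY y).1 m with ⟨k, l⟩ | k
    · rw [eY] at k
      rcases k with k | k
      · exact Or.inl k
      · rcases cq with r | r
        · rw [k, r] at l
          omega
        · exact Or.inr (Or.inl (Eq.trans k r.symm))
    · exact Or.inr (Or.inr k)
  have nq : ql = d.b' → ¬ H.Adj u d.a' := fun r g => by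
    have := (c.hub.ex _ D.py.ha g).1
    rw [r] at this
    omega
  have tY : Tw (PE H dL.Y) := by
    refine ⟨s(d.a', ql), s(ql, u), ?_⟩
    rintro _ ⟨a, ma, b, mb, g, rfl⟩
    have key : ¬ (H.Adj u d.a' ∧ ql ≠ d.a') := fun k => nq (cq.resolve_left k.2) k.1
    rcases yl a ma with r | r | r <;> rcases yl b mb with r' | r' | r' <;> rw [r, r'] at g ⊢
    · exact absurd rfl g.ne
    · exact Or.inl rfl
    · right
      by_contra n
      exact key ⟨g.symm, fun e => n (by rw [e]; rfl)⟩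
    · exact Or.inl Sym2.eq_swap
    · exact absurd rfl g.ne
    · exact Or.inr rfl
    · right
      by_contra n
      exact key ⟨g, fun e => n (by rw [e]; exact Sym2.eq_swap)⟩
    · exact Or.inr Sym2.eq_swap
    · exact absurd rfl g.ne
  obtain ⟨o, O⟩ := h.left hP T c subset_rfl tY
  have OL : OutX H dL (A ∪ B) o.X (PX dL o) fun _ _ => True :=
    out_keep c.l.disc O (fun y m => by
      rcases yl y m with r | r | r
      · exact Or.inl (r.trans c.l.ea'.symm)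
      · exact Or.inr (Or.inr ⟨s(ql, u), Or.inl (mem_PE.2 ⟨c.lL, c.uL, c.hub.ul.symm⟩),
          r ▸ Sym2.mem_mk_left _ _⟩)
      · exact Or.inr (Or.inl (r.trans c.l.eb'.symm)))
      Set.subset_union_right (h.subL c) fun cc Q _ =>
        (tok_empty cc Q).mono fun e m => m.2 (Or.inl m.1)
  obtain ⟨XR, PR, OR⟩ : ∃ X' P, OutX H dR C X' P fun cc Q =>
      cc u = cc d.b' ∨ (u ∈ Q ∧ (β → d.b' ∈ Q)) := by
    rcases hC with ⟨b, k⟩ | ⟨b, k⟩
    · obtain ⟨X', P, g⟩ := ox_le2 hP T c.r.disc (h.topR c) (h.subR c) k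
      rw [c.r.ea', c.r.eb'] at g
      exact ⟨X', P, g.imp' fun _ _ _ m => m.imp_right fun m => ⟨m.1, m.2 b⟩⟩
    · obtain ⟨X', P, g⟩ := ox_le1 T c.r.disc (h.topR c) (h.subR c) k
      rw [c.r.ea', c.r.eb'] at g
      exact ⟨X', P, g.imp' fun _ _ _ m => m.imp_right fun m => Or.inl m.1⟩
  refine ⟨_, _, c.top_short hP T (cq.elim (fun r => Or.inr (by rw [r]; exact st)) Or.inl) OL OR
    fun cc Q h1 h2 => ?_⟩
  by_cases g : cc ql = cc d.b'
  · obtain ⟨k, k1, k2⟩ := oth (cc d.b')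
    refine ⟨k, ∅, {y | y = u ∨ (β ∧ y = d.b')}, k1.trans (h1 _ D.py.hb), fun _ m => k2 m.2,
      fun m => absurd (g.symm.trans m) k2, fun m => absurd m k2, fun m => m.elim,
      fun _ m => m.elim, fun _ _ _ m => m.elim, ?_,
      fun c1 _ _ => ⟨trivial, Or.inr ⟨Or.inl rfl, fun b => Or.inr ⟨b, rfl⟩⟩⟩⟩
    rintro y m - (r | ⟨b, r⟩)
    exacts [absurd r (c.nu m), r ▸ h2.1 b]
  · have r : ql = d.a' := cq.resolve_right fun r => g (by rw [r])
    have q : d.b' ∈ Q := (h2.2.resolve_left fun n => n (r ▸ c.hub.ul)).resolve_left (r ▸ g)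
    exact ⟨cc d.b', ∅, ∅, h1 _ D.py.hb, fun _ m => g m.1, fun m => absurd m g,
      fun _ => ⟨q, fun m => m, fun _ m => m, fun m => m, fun m => m⟩, fun m => m.elim,
      fun _ m => m.elim, fun _ _ _ m => m.elim, fun _ _ _ m => m.elim,
      fun c1 e1 e2 => ⟨trivial, Or.inl (e1.trans (e2 _ D.py.hb).symm)⟩⟩

/-- two edges on top; `u` sees only the last vertex -/
theorem HU.cap (hP : Pl H Set.univ) (T : TA H) (h : HU H d u t f A B C) (b : Bump H d x)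
    (n1 : ¬ H.Adj u d.a') (n2 : ¬ H.Adj u x) (hC : C.Subsingleton) :
    ∃ X' P, OutX H d (A ∪ B ∪ C) X' P fun c Q => c x = c d.a' ∨ x ∈ Q ∨ d.a' ∈ Q := by
  classical
  have D := h.disc
  obtain ⟨ql, dL, dR, K, c⟩ := h.cut hP
  obtain rfl : ql = d.b' := by
    rcases b.cases c.hub.hl with r | r | r
    exacts [absurd (r ▸ c.hub.ul) n1, absurd (r ▸ c.hub.ul) n2, r]
  have xL : x ∈ dL.Y := (c.l.eY x).2 (Or.inl ⟨b.hv, b.l2.le⟩)
  have m1 : s(x, d.b') ∈ PE H dL.Y := mem_PE.2 ⟨xL, c.lL, b.e2⟩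
  have m2 : s(d.b', u) ∈ PE H dL.Y := mem_PE.2 ⟨c.lL, c.uL, h.ub.symm⟩
  have yl : ∀ y ∈ dL.Y, y ∈ d.Y ∨ y = u := fun y m => ((c.l.eY y).1 m).imp_left And.left
  obtain ⟨o, O⟩ := h.left hP T c (Y0 := {s(x, d.b'), s(d.b', u)}) (by
    rintro _ (rfl | rfl)
    exacts [m1, m2]) (tw_pair _ _)
  have l : PE H dL.Y \ ({s(x, d.b'), s(d.b', u)} ∪ (A ∪ B)) ⊆ {s(x, d.a')} := by
    rintro _ ⟨⟨a, ma, a', ma', g, rfl⟩, n⟩
    have uu : ∀ y ∈ d.Y, H.Adj u y → y = d.b' := fun y m e => by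
      rcases b.cases m with r | r | r
      exacts [absurd (r ▸ e) n1, absurd (r ▸ e) n2, r]
    rcases yl a ma with k | k <;> rcases yl a' ma' with k' | k'
    · exact (b.pe (mem_PE.2 ⟨k, k', g⟩)).resolve_right fun r => n (Or.inl (Or.inl r))
    · subst k'
      exact absurd (Or.inl (Or.inr (by rw [uu a k g.symm]; rfl))) n
    · subst k
      exact absurd (Or.inl (Or.inr (by rw [uu a' k' g]; exact Sym2.eq_swap))) n
    · exact absurd (k.trans k'.symm) g.ne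
  have OL : OutX H dL (A ∪ B) o.X (PX dL o) fun cc Q => cc x = cc d.a' ∨ x ∈ Q ∨ d.a' ∈ Q :=
    out_keep c.l.disc O (fun y m => by
      rcases yl y m with k | r
      · rcases b.cases k with r | r | r
        · exact Or.inl (r.trans c.l.ea'.symm)
        · exact Or.inr (Or.inr ⟨_, Or.inl (Or.inl rfl), r ▸ Sym2.mem_mk_left _ _⟩)
        · exact Or.inr (Or.inr ⟨_, Or.inl (Or.inl rfl), r ▸ Sym2.mem_mk_right _ _⟩)
      · exact Or.inr (Or.inl (r.trans c.l.eb'.symm)))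
      Set.subset_union_right (h.subL c) fun cc Q k => by
        rcases k with k | k | k
        · exact (tok_one (Or.inl k)).mono l
        · exact (tok_one (Or.inr k)).mono l
        · exact (tok_one (b := x) (Or.inr k)).mono (Sym2.eq_swap (a := x) ▸ l)
  obtain ⟨XR, PR, OR⟩ := ox_le1 T c.r.disc (h.topR c) (h.subR c) hC
  rw [c.r.ea', c.r.eb'] at OR
  refine ⟨_, _, c.top_short hP T (Or.inl rfl) OL OR fun cc Q h1 h2 => ?_⟩
  obtain ⟨k, k1, k2⟩ := oth (cc d.b')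
  refine ⟨k, Q ∩ d.Y, {u}, k1.trans (h1 _ D.py.hb), fun n => absurd rfl n,
    fun m => absurd m k2, fun m => absurd m k2, fun m => absurd rfl (c.nu m.2),
    fun _ _ m => c.nu D.py.hb m, fun _ _ _ m => m.1, fun y m _ r => absurd r (c.nu m),
    fun c1 _ e2 => ⟨?_, Or.inr (Or.inl rfl)⟩⟩
  rw [e2 _ b.hv, e2 _ D.py.ha]
  exact h2.imp_right (Or.imp (fun m => ⟨m, b.hv⟩) fun m => ⟨m, D.py.ha⟩)

end Pool.Agent.P.MP_08fd93_co.FH
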