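import Pool.Agent.P.MP_08fd93_co.FH.L1
import Pool.Agent.P.MP_08fd93_co.FZ.W3
import Pool.Agent.P.MP_08fd93_co.FK.K12

/-! Both anchored neighbours of the head are off the line: the closed theorem. -/

set_option autoImplicit false

namespace Pool.Agent.P.MP_08fd93_co.FH

open OV FZ FK FE FN

variable {J : Type} {G : VD J} {v z u l r : Vx J}

theorem LH.hz' (h : LH G v z u l r) : ∃ f, HZ G v z l r u f := by
  obtain ⟨f, hf, uf, n⟩ := h.ft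
  have R := h.zr.rows
  have m := h.uI
  rw [VD.In, R.uw.lf _ _ h.zr.hr.1] at m
  obtain ⟨a, b⟩ := m.2 f (cpv_nb uf)
  have z0 := h.zr.z0
  obtain ⟨w1, w2⟩ := R.rho_lw 1 z0.1
  rw [one_smul] at w1 w2
  rw [h.zr.hr.2.1, h.zr.sw.sh, h.zr.xv] at a
  rw [h.ah, (h.zr.sw.vf.xo _ (h.zr.sw.vf.l_nk w1)).1] at b
  have a' : G.ρ z ≤ G.ρ f := not_lt.1 fun c => a (Or.inl ⟨hf, c⟩)
  have b' : G.ρ f ≤ G.ρ (tr G.w z) := not_lt.1 fun c => b (Or.inl ⟨hf, c⟩)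
  refine ⟨f, h.zr, h.ah, h.uv, h.uh, m.1, hf, uf, lt_of_le_of_ne a' fun c => n ?_,
    lt_of_le_of_ne (by omega) fun c => n ?_, fun c => n (h.hz f hf c.symm)⟩
  · rw [R.inj z0.1 hf c]
  · rw [R.inj hf w1 (by omega)]
    rfl

theorem m1 : S_M1 := fun _ _ _ _ _ _ _ _ h n =>
  let ⟨_, k⟩ := h.hz'
  k.col (Or.inl n)

theorem m3 : S_M3 := fun _ _ G v z u l r h _ a _ => by
  obtain ⟨f, k⟩ := h.hz'
  refine k.col (Or.inr fun c => h.sl.nl _ _ h.zr.z0.2 ?_)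
  have e := h.zr.hl.2.1
  rw [orb_eq c, h.zr.rows.nx_tr _ (h.zr.rows.nx_mem h.zr.hr.1).1, h.zr.sw.vf.atr, a] at e
  rw [← e]
  rfl

theorem l1 : S_L1 := l1_of m1

theorem l3 : S_L3 := l3_of m3

theorem c2h [Fintype J] {T T' : FP2.TD J} {p p' R R' : Vx J} {g g' : Vx J → ℤ}
    (h : HC T v z u p R g) (h' : HC T' v u z p' R' g') (m : Mi T T' R R') :
    ∃ c, Col1 T.Γ ∅ c := c2h_col TB.h1 TB.h2 TB.ho l1 l3 h h' m

end Pool.Agent.P.MP_08fd93_co.FH
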