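import Pool.Agent.P.MP_08fd93_co.FH.H2

/-! Both anchored neighbours of the head are off the line: the final split. -/

set_option autoImplicit false

namespace Pool.Agent.P.MP_08fd93_co.FH

open OV FB FP2 FP

variable {J : Type} {G G' : TD J} {v z u p p' R R' y f t : Vx J} {g g' : Vx J → ℤ}

/-- The frame with the tail `v`, `z`; the top edge `R` runs from a child of `v` to a child of the
next neck, and the other anchored neighbour `u` of `v` lies under it. -/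
structure HC (G : TD J) (v z u p R : Vx J) (g : Vx J → ℤ) : Prop where
  t : TR G.Γ G.η v z p g
  a : An2 G.Γ v z g G.an
  F : Fr2 G.Γ G.η v z g G.an G
  r1 : R ∈ G.L 1
  aR : G.an R = v
  ah : G.an (G.nx R) = tr G.w z
  uI : u ∈ G.Im R (G.nx R)
  uv : G.Γ.Adj u v
  uh : G.Γ.Adj u (G.nx R)
  pa : ∀ w, G.Γ.Adj w v → ∀ y ∈ G.L 0, G.Γ.Adj w y →
    G.Γ.Adj z y ∨ G.Γ.Adj u y ∨ w ∈ G.L 1 → w = z ∨ w = u
  ft : ∃ f ∈ G.L 0, G.Γ.Adj u f ∧ G.ρ (G.xr z) < G.ρ f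

/-- `G'` has the lines of `G`, read from right to left, and the same hub. -/
structure Mi (G G' : TD J) (R R' : Vx J) : Prop where
  eΓ : G'.Γ = G.Γ
  eL : ∀ j, G'.L j = G.L j
  eρ : ∀ x, G'.ρ x = -G.ρ x
  ew : G'.w = -G.w
  en : G'.nn = G.nn
  eh : G.nx R = tr G.w (G'.nx R')

/-- long tail, the hub does not see the left end of the top -/
def S_L1 : Prop := ∀ (J : Type) [Fintype J] (G : TD J) (v z u p R : Vx J) (g : Vx J → ℤ),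
  HC G v z u p R g → G.ρ (G.xl z) + 1 < G.ρ (G.xr z) → ¬ G.Γ.Adj u R → ∃ c, Col1 G.Γ ∅ c

/-- both tails are long -/
def S_L3 : Prop := ∀ (J : Type) [Fintype J] (G : TD J) (v z u p R : Vx J) (g : Vx J → ℤ),
  HC G v z u p R g → G.ρ (G.xl z) + 1 < G.ρ (G.xr z) → G.Γ.Adj u R →
    G.an (G.nx (G.nx R)) = tr G.w z →
      (∃ t ∈ G.L 0, ∃ f ∈ G.L 0, G.Γ.Adj u t ∧ G.Γ.Adj u f ∧ G.ρ t + 1 < G.ρ f) →
        ∃ c, Col1 G.Γ ∅ c

section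

variable (h : HC G v z u p R g)
include h

theorem HC.vV : v ∈ G.V := h.F.eV ▸ Or.inl rfl

theorem HC.zV : z ∈ G.V := h.F.eV ▸ Or.inr rfl

theorem HC.fz : G.f z = 1 := h.F.ef ▸ h.t.fz

theorem HC.feet : (G.xl z ∈ G.L 0 ∧ G.Γ.Adj z (G.xl z)) ∧ (G.xr z ∈ G.L 0 ∧ G.Γ.Adj z (G.xr z)) ∧
    ∀ q ∈ G.L 0, G.Γ.Adj z q → G.ρ (G.xl z) ≤ G.ρ q ∧ G.ρ q ≤ G.ρ (G.xr z) := by
  have l := h.F.tf.vl z h.zV
  have r := h.F.tf.vr z h.zV
  have m := h.F.tf.vx z h.zV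
  rw [h.fz, h.F.mz, sub_self] at l r
  rw [h.fz, sub_self] at m
  exact ⟨l, r, fun q hq e => (m q hq e).2⟩

theorem HC.u_nl (hy : y ∈ G.L 1) : y ≠ u := by
  rintro rfl
  exact h.F.tf.toRows.la_st (h.F.tf.toRows.la hy) h.uI.1.1

/-- a common neighbour of both roots on the line is a child of the neck -/
theorem HC.an_z (hy : y ∈ G.L 1) (a : G.Γ.Adj y v) (b : G.Γ.Adj y z) : G.an y = z := by
  have pr : y ∈ G.Pr := h.F.eP ▸ trivial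
  obtain ⟨k1, k2 | ⟨k2, -⟩⟩ := h.F.tf.aa 1 y hy pr
  · rcases h.pa y a _ k2 k1 (Or.inr (Or.inr hy)) with r | r
    exacts [absurd (r ▸ h.zV) (h.F.tf.l_nv hy), absurd r (h.u_nl hy)]
  · obtain ⟨c, e | e⟩ := kt_ex (h.F.eV ▸ k2)
    · have e1 : G.an y = v := h.t.toSl.near2 (by rw [e]; rfl) k1.symm a
      have := (h.F.tf.pure 1 y hy pr k2).2
      rw [e1, h.F.mv] at this
      exact e1.trans (this b).symm
    · exact h.t.toSl.near2 (by rw [e]; rfl) k1.symm b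

theorem HC.Rv : G.Γ.Adj R v := h.aR ▸ (h.F.tf.aa 1 R h.r1 (h.F.eP ▸ trivial)).1

theorem HC.ch [Fintype J] (l : G.ρ (G.xr z) ≤ G.ρ (G.xl z) + 1) :
    ∃ la lb, CH G v z u la lb R R := by
  obtain ⟨la, lb, lc, ld, q⟩ := tq_ex h.F h.t h.a l
  have rw := q.rows
  have rl := rw.la h.r1
  have zw : tr G.w z ≠ z := fun c => rw.wp.w0 (tr_eq_tr (c.trans (tr_zero z).symm))
  have nk : G.nk R = z := by rw [TD.nk, h.aR, q.mv]
  have nk' : G.nk (G.nx R) = tr G.w z := by rw [TD.nk, h.ah, q.md_z]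
  have iD : IsD G R := ⟨rl, h.aR ▸ q.vV, by rw [nk, nk']; exact zw.symm⟩
  have iC : IsC G R := ⟨rl, by rw [nk, h.aR]; exact q.vz.ne', by
    rw [h.aR, h.ah]
    exact fun c => q.ne (by rw [c]; rfl)⟩
  have iA : IsA G R := ⟨rl, h.ah ▸ q.st.tf.vtr _ _ q.zV, iD.2.2⟩
  obtain rfl : ld = R := q.st.isD_uni iD q.hd.1 (q.hd.2.trans nk.symm)
  obtain rfl : lc = ld := q.st.isC_uni iC q.hc.1 (q.hc.2.trans h.aR.symm)
  obtain ⟨c, e, k, -⟩ := q.isA iA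
  obtain rfl : G.w = c := tr_eq_tr (nk'.symm.trans k)
  refine ⟨la, lb, q, ⟨rfl, e, ?_⟩, (q.st.bd_I rl).symm ▸ h.uI, h.uv, h.uh, h.pa⟩
  have := h.ah
  rw [e, rw.nx_tr _ q.ord.1, q.st.tf.atr] at this
  exact tr_inj _ this

end

theorem Mi.symm (m : Mi G G' R R') : Mi G' G R' R :=
  ⟨m.eΓ.symm, fun j => (m.eL j).symm, fun x => by rw [m.eρ, neg_neg], by rw [m.ew, neg_neg],
    m.en.symm, by rw [m.eh, m.ew, tr_neg]⟩

theorem HC.an2 (h : HC G v z u p R g) (h' : HC G' v u z p' R' g') (m : Mi G G' R R')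
    (a : G.Γ.Adj z R') : G.an (G.nx (G.nx R)) = tr G.w z := by
  have rw := h.F.tf.toRows
  have r1 : R' ∈ G.L 1 := m.eL 1 ▸ h'.r1
  obtain ⟨n1, n2, -⟩ := h'.F.tf.toRows.nx_mem h'.r1
  have n1 : G'.nx R' ∈ G.L 1 := m.eL 1 ▸ n1
  obtain ⟨k1, k2, -⟩ := rw.nx_mem n1
  have n2 : G'.ρ (G'.nx R') = G'.ρ R' + 1 := n2
  rw [m.eρ, m.eρ] at n2
  have e : G.nx (G'.nx R') = R' := rw.inj k1 r1 (by omega)
  rw [m.eh, rw.nx_tr _ n1, e, h.F.tf.atr, h.an_z r1 (m.eΓ ▸ h'.Rv) a.symm]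

variable [Fintype J]

/-- short tail, the hub does not see the left end of the top -/
theorem HC.k1 (h : HC G v z u p R g) (H : S_H1) (L : S_L1) (n : ¬ G.Γ.Adj u R) :
    ∃ c, Col1 G.Γ ∅ c := by
  by_cases l : G.ρ (G.xr z) ≤ G.ρ (G.xl z) + 1
  · obtain ⟨la, lb, k⟩ := h.ch l
    obtain ⟨f, hf, uf, c⟩ := h.ft
    exact k.c1 h.t.toSl H n hf uf c
  · exact L J G v z u p R g h (by omega) n

theorem CH.y1 {la lb : Vx J} (k : CH G v z u la lb R R) (y : G.an (G.nx (G.nx R)) = tr G.w z) :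
    G.an (G.nx (G.nx la)) = z := by
  have rw := k.tq.rows
  rw [k.wr.ed, rw.nx_tr _ k.tq.ord.1, rw.nx_tr _ (rw.nx_mem k.tq.ord.1).1, k.tq.st.tf.atr] at y
  exact tr_inj _ y

/-- short tail, the hub has two feet -/
theorem HC.k2 (h : HC G v z u p R g) (H : S_H2) (l : G.ρ (G.xr z) ≤ G.ρ (G.xl z) + 1)
    (y : G.an (G.nx (G.nx R)) = tr G.w z) (ht : t ∈ G.L 0) (hf : f ∈ G.L 0) (ut : G.Γ.Adj u t)
    (uf : G.Γ.Adj u f) (ne : G.ρ t ≠ G.ρ f) : ∃ c, Col1 G.Γ ∅ c := by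
  obtain ⟨la, lb, k⟩ := h.ch l
  wlog o : G.ρ t < G.ρ f generalizing t f
  · exact this hf ht uf ut ne.symm (by omega)
  have a := k.foot ht ut
  have b := k.foot hf uf
  by_cases c : G.ρ (G.xr z) < G.ρ t
  · exact k.c2 h.t.toSl H (k.y1 y) ht ut c (Or.inl (by omega))
  · obtain rfl : t = G.xr z := k.tq.rows.inj ht h.feet.2.1.1 (by omega)
    exact k.c2 h.t.toSl H (k.y1 y) hf uf o (Or.inr ut)

/-- Both anchored neighbours of the head are off the line. -/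
theorem c2h_col (H1 : S_H1) (H2 : S_H2) (HO : S_HO) (L1 : S_L1) (L3 : S_L3)
    (h : HC G v z u p R g) (h' : HC G' v u z p' R' g') (m : Mi G G' R R') :
    ∃ c, Col1 G.Γ ∅ c := by
  have eΓ := m.eΓ
  by_cases n : G.Γ.Adj u R
  swap
  · exact h.k1 H1 L1 n
  by_cases n' : G'.Γ.Adj z R'
  swap
  · exact eΓ ▸ h'.k1 H1 L1 n'
  have y := h.an2 h' m (eΓ ▸ n')
  have y' := h'.an2 h m.symm (eΓ.symm ▸ n)
  obtain ⟨⟨a1, a2⟩, ⟨a3, a4⟩, a5⟩ := h.feet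
  obtain ⟨⟨b1, b2⟩, ⟨b3, b4⟩, b5⟩ := h'.feet
  have a6 := a5 _ a1 a2
  have b6 := b5 _ b1 b2
  have two : G'.ρ (G'.xr u) ≤ G'.ρ (G'.xl u) + 1 → G.ρ (G.xl z) ≠ G.ρ (G.xr z) →
      ∃ c, Col1 G.Γ ∅ c := fun l ne =>
    eΓ ▸ h'.k2 H2 l y' ((m.eL 0).symm ▸ a1) ((m.eL 0).symm ▸ a3) (eΓ.symm ▸ a2) (eΓ.symm ▸ a4)
      (by rw [m.eρ, m.eρ]; omega)
  rw [m.eL, eΓ] at b5
  rw [m.eL] at b1 b3
  rw [eΓ] at b2 b4
  simp only [m.eρ] at b5 b6 two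
  by_cases l : G.ρ (G.xr z) ≤ G.ρ (G.xl z) + 1
  · by_cases c : G.ρ (G'.xl u) = G.ρ (G'.xr u)
    swap
    · exact h.k2 H2 l y b1 b3 b2 b4 c
    by_cases c' : G.ρ (G.xl z) = G.ρ (G.xr z)
    swap
    · exact two (by omega) c'
    obtain ⟨la, lb, k⟩ := h.ch l
    obtain ⟨f, hf, uf, o⟩ := h.ft
    by_cases e : G.ρ f < G.ρ (G.xl z) + G.nn 0
    · exact k.c2 h.t.toSl H2 (k.y1 y) hf uf o (Or.inl e)
    have b := k.foot hf uf
    have pw := k.pw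
    obtain rfl : f = tr G.w (G.xl z) := k.tq.rows.inj hf pw.1 (by omega)
    refine k.c3 h.t.toSl HO (k.y1 y) (k.tq.rows.inj a3 a1 c'.symm) uf fun q => ?_
    have := b5 _ a3 q
    have := b5 _ hf uf
    omega
  · by_cases l' : -G.ρ (G'.xr u) ≤ -G.ρ (G'.xl u) + 1
    · exact two l' (by omega)
    · exact L3 J G v z u p R g h (by omega) n y ⟨_, b3, _, b1, b4, b2, by omega⟩

end Pool.Agent.P.MP_08fd93_co.FH
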