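import Pool.Agent.P.MP_08fd93_co.FH.St

/-! The cell that runs from the head to the next neck and contains a hub. -/

set_option autoImplicit false

namespace Pool.Agent.P.MP_08fd93_co.FH

open OV FB FP2 FP

variable {J : Type} {G : TD J} {v z u la lb lc ld y e x f t : Vx J} {A B C : Set (Sym2 (Vx J))}

/-- The second anchored neighbour `u` of the head lies under `ld` and sees its right end. -/
structure CH (G : TD J) (v z u la lb lc ld : Vx J) : Prop where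
  tq : TQ G v z la lb lc ld
  wr : Wr G z la lc ld
  uI : u ∈ (Bd G ld).I
  uv : G.Γ.Adj u v
  uh : G.Γ.Adj u (G.nx ld)
  pa : ∀ w, G.Γ.Adj w v → ∀ y ∈ G.L 0, G.Γ.Adj w y →
    G.Γ.Adj z y ∨ G.Γ.Adj u y ∨ w ∈ G.L 1 → w = z ∨ w = u

/-- An edge of the bottom under `l` with its ends between `i` and `k`. -/
def Eg (G : TD J) (l : Vx J) (i k : ℤ) (e : Sym2 (Vx J)) : Prop :=
  e ∈ PE G.Γ (Bd G l).X ∧ ∀ x ∈ e, i ≤ (Bd G l).ρ x ∧ (Bd G l).ρ x ≤ k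

section

variable (h : CH G v z u la lb lc ld)
include h

theorem CH.d1 : ld ∈ G.L 1 := h.tq.ord.2.2.2.1

theorem CH.dl : ld ∈ G.LA := h.tq.rows.la h.d1

theorem CH.an1 : G.an ld = v := h.wr.ec ▸ h.tq.hc.2

theorem CH.an2 : G.an (G.nx ld) = tr G.w z := by
  rw [h.wr.ed, h.tq.rows.nx_tr _ h.tq.ord.1, h.tq.st.tf.atr, h.wr.eh]

theorem CH.xr1 : G.xr (G.an ld) = G.xr z := by rw [h.an1, h.tq.xv.2]

theorem CH.xl2 : G.xl (G.an (G.nx ld)) = tr G.w (G.xl z) := by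
  rw [h.an2, (h.tq.st.tf.xtr _ _).1]

theorem CH.pw : tr G.w (G.xl z) ∈ G.L 0 ∧ G.ρ (tr G.w (G.xl z)) = G.ρ (G.xl z) + G.nn 0 := by
  simpa using h.tq.rows.rho_lw 1 h.tq.feet.1.1

theorem CH.far : G.ρ (G.xr z) + 3 ≤ G.ρ (G.xl z) + G.nn 0 := by
  have := h.tq.st.sh z h.tq.zV
  have := h.tq.n4 0
  omega

theorem CH.disc : Disc G.Γ (Bd G ld) := h.tq.st.bd_disc h.dl

theorem CH.row (hy : y ∈ G.L 0) (l1 : G.ρ (G.xr z) ≤ G.ρ y)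
    (l2 : G.ρ y ≤ G.ρ (G.xl z) + G.nn 0) : y ∈ (Bd G ld).X ∧ (Bd G ld).ρ y = G.ρ y :=
  ⟨h.tq.st.bt_of h.d1 h.tq.hd.1.2.2 hy (by rwa [h.xr1]) (by rwa [h.xl2, h.pw.2]),
    tord_old (h.tq.st.tf.l_nv hy)⟩

theorem CH.foot (hy : y ∈ G.L 0) (a : G.Γ.Adj u y) :
    G.ρ (G.xr z) ≤ G.ρ y ∧ G.ρ y ≤ G.ρ (G.xl z) + G.nn 0 := by
  have R := h.tq.rows
  obtain ⟨n1, n2, -⟩ := R.nx_mem h.d1
  rcases nb_I h.disc h.uI a with m | m | m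
  · have := h.tq.st.tf.bt_line h.d1 (h.tq.st.pr _) n1 (h.tq.st.pr _) (by omega) m
      (h.tq.st.tf.l_nv hy)
    rw [h.xr1, h.xl2, h.pw.2] at this
    exact this.2
  · have a := R.uw.lf _ _ hy
    rcases (h.tq.st.bd_Y h.dl).1 m with r | r
    · have := R.uw.lf _ _ h.d1
      rw [← r] at this
      omega
    · have := R.uw.lf _ _ n1
      rw [← r] at this
      omega
  · rw [h.tq.st.bd_I h.dl] at m
    exact absurd m.1.1 (R.la_st (R.la hy))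

theorem CH.zw : tr G.w z ≠ v ∧ tr G.w z ≠ z :=
  ⟨fun c => h.tq.ne (by rw [← c]; rfl),
    fun c => h.tq.rows.wp.w0 (tr_eq_tr (c.trans (tr_zero z).symm))⟩

theorem CH.oz : (Bd G ld).ρ z = G.ρ (G.xr z) - 1 := by
  have := tord_n (G := G) (s := ld) (s' := G.nx ld) (h.tq.hd.2.symm ▸ h.tq.zV)
    (by rw [h.tq.hd.2, h.an1]; exact h.tq.vz.ne') (by rw [h.tq.hd.2, h.an2]; exact h.zw.2.symm)
  rwa [h.tq.hd.2, h.xr1] at this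

theorem CH.ow : G.ρ (G.xl z) + G.nn 0 ≤ (Bd G ld).ρ (tr G.w z) := by
  have := tord_b (G := G) (s := ld) (s' := G.nx ld)
    (h.an2.symm ▸ h.tq.st.tf.vtr _ _ h.tq.zV) (by rw [h.an2, h.an1]; exact h.zw.1)
  rw [h.xl2, h.pw.2, h.an2] at this
  have k : (Bd G ld).ρ (tr G.w z) = _ := this
  omega

theorem CH.eg_d : Eg G ld (G.ρ (G.xr z) - 1) (G.ρ (G.xr z)) s(z, G.xr z) := by
  have := h.far
  refine ⟨h.tq.pe.2.2.2, mem2 ?_ ?_⟩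
  · rw [h.oz]
    omega
  · rw [(h.row h.tq.feet.2.1.1 le_rfl (by omega)).2]
    omega

theorem CH.eg_r (he : e ∈ G.L 0) (l1 : G.ρ (G.xr z) ≤ G.ρ e) (l2 : G.ρ e < G.ρ (G.xl z) + G.nn 0) :
    Eg G ld (G.ρ e) (G.ρ e + 1) s(e, G.nx e) := by
  obtain ⟨n1, n2, n3⟩ := h.tq.rows.nx_mem he
  have a := h.row he l1 l2.le
  have b := h.row n1 (by omega) (by omega)
  refine ⟨mem_PE.2 ⟨a.1, b.1, n3⟩, mem2 ?_ ?_⟩
  · rw [a.2]
    omega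
  · rw [b.2]
    omega

theorem CH.eg_a : ∃ k, Eg G ld (G.ρ (G.xl z) + G.nn 0) k (ea G z) := by
  have := h.far
  have := h.ow
  have a := h.row h.pw.1 (by rw [h.pw.2]; omega) h.pw.2.le
  refine ⟨(Bd G ld).ρ (tr G.w z), mem_PE.2 ⟨h.an2 ▸ bt_b, a.1,
    h.tq.rows.fine.inv _ _ _ h.tq.feet.1.2⟩, mem2 ⟨this, le_rfl⟩ ?_⟩
  rw [a.2, h.pw.2]
  exact ⟨le_rfl, this⟩

/-- the hub with two cuts -/
theorem CH.hu2 (ht : t ∈ (Bd G ld).X) (ut : G.Γ.Adj u t) (hf : f ∈ G.L 0) (uf : G.Γ.Adj u f)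
    (tf : (Bd G ld).ρ t ≤ G.ρ f) (tA : Tw A) (tB : Tw B)
    (kA : ∀ e ∈ A, ∃ i k, Eg G ld i k e ∧ k ≤ (Bd G ld).ρ t)
    (kB : ∀ e ∈ B, ∃ i k, Eg G ld i k e ∧ (t = v ∨ (Bd G ld).ρ t ≤ i) ∧ k ≤ G.ρ f)
    (kC : ∀ e ∈ C, ∃ i k, Eg G ld i k e ∧ G.ρ f ≤ i) : HU G.Γ (Bd G ld) u t f A B C := by
  have a := h.foot hf uf
  have b := h.row hf a.1 a.2
  have ea : (Bd G ld).a = v := h.an1
  refine ⟨h.disc, h.uI, ea ▸ h.uv, h.uh, ht, b.1, ut, uf, b.2 ▸ tf, fun g => ?_,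
    fun e m => let ⟨_, _, k, _⟩ := kA e m; k.1, fun e m => let ⟨_, _, k, _⟩ := kB e m; k.1,
    fun e m => let ⟨_, _, k, _⟩ := kC e m; k.1, tA, tB, fun e m x g => ?_, fun e m x g => ?_,
    fun e m x g => ?_⟩
  · exact (h.tq.st.pure_iff (h.tq.rows.nx_mem h.d1).1).1
      (h.an2.symm ▸ h.tq.st.tf.vtr _ _ h.tq.zV) f hf g.symm
  · obtain ⟨i, k, k1, k2⟩ := kA e m
    exact (k1.2 x g).2.trans k2
  · obtain ⟨i, k, k1, k2, k3⟩ := kB e m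
    refine ⟨?_, b.2 ▸ (k1.2 x g).2.trans k3⟩
    rcases k2 with r | r
    · rw [r, ← ea]
      exact h.disc.px.lo x (PE.ends k1.1 g)
    · exact r.trans (k1.2 x g).1
  · obtain ⟨i, k, k1, k2⟩ := kC e m
    exact b.2 ▸ k2.trans (k1.2 x g).1

/-- the hub with one cut -/
theorem CH.hu1 (hf : f ∈ G.L 0) (uf : G.Γ.Adj u f) (tB : Tw B)
    (kB : ∀ e ∈ B, ∃ i k, Eg G ld i k e ∧ k ≤ G.ρ f)
    (kC : ∀ e ∈ C, ∃ i k, Eg G ld i k e ∧ G.ρ f ≤ i) : HU G.Γ (Bd G ld) u v f ∅ B C := by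
  have a := h.foot hf uf
  have b := h.row hf a.1 a.2
  have ea : (Bd G ld).a = v := h.an1
  exact h.hu2 (ea ▸ h.disc.px.ha) h.uv hf uf (by
      rw [← ea, ← b.2]
      exact h.disc.px.lo f b.1) ((tw_one s(v, v)).mono (Set.empty_subset _)) tB
    (fun _ m => m.elim) (fun e m => let ⟨i, k, k1, k2⟩ := kB e m; ⟨i, k, k1, Or.inl rfl, k2⟩) kC

theorem CH.free (k : HU G.Γ (Bd G ld) u t f A B C) (n : ¬ G.Γ.Adj u ld) (one : C.Subsingleton)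
    {S : Set (Sym2 (Vx J))} (s : S ⊆ A ∪ B ∪ C) : Free G ld S := by
  have hP := h.tq.rows.pl
  obtain ⟨X, Q, O⟩ := k.triv hP (all_T _ _ hP) (h.tq.st.bd_st h.dl) False (Or.inr ⟨id, one⟩)
  exact ⟨X, Q, (O.mono s).imp' fun _ _ _ _ => ⟨False.elim, Or.inl n⟩⟩

theorem CH.freeR (k : HU G.Γ (Bd G ld) u t f A B C) (two : Tw C)
    {S : Set (Sym2 (Vx J))} (s : S ⊆ A ∪ B ∪ C) : FreeR G ld S := by
  have hP := h.tq.rows.pl
  obtain ⟨X, Q, O⟩ := k.triv hP (all_T _ _ hP) (h.tq.st.bd_st h.dl) True (Or.inl ⟨trivial, two⟩)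
  exact ⟨X, Q, (O.mono s).imp' fun _ _ _ m => ⟨fun _ => m, Or.inr (Or.inr m)⟩⟩

/-- the hub does not see the left end of the top -/
theorem CH.p1 (n : ¬ G.Γ.Adj u ld) (hf : f ∈ G.L 0) (uf : G.Γ.Adj u f) (l : G.ρ (G.xr z) < G.ρ f) :
    Free G ld {s(z, G.xr z), s(G.xr z, G.nx (G.xr z)), ea G z} ∧
      ∃ y ∈ G.L 0, G.nx y = tr G.w (G.xl z) ∧ Free G ld {s(z, G.xr z), s(y, G.nx y)} := by
  have far := h.far
  have a := h.foot hf uf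
  obtain ⟨k, ka⟩ := h.eg_a
  constructor
  · refine h.free (h.hu1 (B := {s(z, G.xr z), s(G.xr z, G.nx (G.xr z))}) (C := {ea G z}) hf uf
      (tw_pair _ _) ?_ ?_) n Set.subsingleton_singleton ?_
    · rintro _ (rfl | rfl)
      exacts [⟨_, _, h.eg_d, a.1⟩, ⟨_, _, h.eg_r h.tq.feet.2.1.1 le_rfl (by omega), l⟩]
    · rintro _ rfl
      exact ⟨_, _, ka, a.2⟩
    · rintro _ (rfl | rfl | rfl)
      exacts [Or.inl (Or.inr (Or.inl rfl)), Or.inl (Or.inr (Or.inr rfl)), Or.inr rfl]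
  obtain ⟨y1, y2, y3⟩ := FK.pv_mem h.tq.st.lay h.pw.1
  set y := FK.pv (FT G) (tr G.w (G.xl z))
  have y2 : G.ρ y = G.ρ (tr G.w (G.xl z)) - 1 := y2
  rw [h.pw.2] at y2
  have ky := h.eg_r y1 (by omega) (by omega)
  refine ⟨y, y1, y3, ?_⟩
  by_cases c : G.ρ f ≤ G.ρ y
  · refine h.free (h.hu1 (B := {s(z, G.xr z)}) (C := {s(y, G.nx y)}) hf uf (tw_one _) ?_ ?_) n
      Set.subsingleton_singleton ?_
    · rintro _ rfl
      exact ⟨_, _, h.eg_d, a.1⟩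
    · rintro _ rfl
      exact ⟨_, _, ky, c⟩
    · rintro _ (rfl | rfl)
      exacts [Or.inl (Or.inr rfl), Or.inr rfl]
  · refine h.free (h.hu1 (B := {s(z, G.xr z), s(y, G.nx y)}) (C := ∅) hf uf (tw_pair _ _) ?_
      fun _ m => m.elim) n Set.subsingleton_empty fun _ m => Or.inl (Or.inr m)
    rintro _ (rfl | rfl)
    exacts [⟨_, _, h.eg_d, a.1⟩, ⟨_, _, ky, by omega⟩]

/-- a foot of the hub strictly inside -/
theorem CH.p2 (hf : f ∈ G.L 0) (uf : G.Γ.Adj u f) (he : e ∈ G.L 0) (hx : x ∈ G.L 0)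
    (l1 : G.ρ (G.xr z) ≤ G.ρ e) (l2 : G.ρ e < G.ρ f) (l3 : G.ρ f ≤ G.ρ x)
    (l4 : G.ρ x < G.ρ (G.xl z) + G.nn 0) :
    FreeR G ld {s(z, G.xr z), s(e, G.nx e), s(x, G.nx x), ea G z} := by
  have a := h.foot hf uf
  obtain ⟨k, ka⟩ := h.eg_a
  refine h.freeR (h.hu1 (B := {s(z, G.xr z), s(e, G.nx e)}) (C := {s(x, G.nx x), ea G z}) hf uf
    (tw_pair _ _) ?_ ?_) (tw_pair _ _) ?_
  · rintro _ (rfl | rfl)
    exacts [⟨_, _, h.eg_d, a.1⟩, ⟨_, _, h.eg_r he l1 (by omega), l2⟩]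
  · rintro _ (rfl | rfl)
    exacts [⟨_, _, h.eg_r hx (by omega) l4, l3⟩, ⟨_, _, ka, a.2⟩]
  · rintro _ (rfl | rfl | rfl | rfl)
    exacts [Or.inl (Or.inr (Or.inl rfl)), Or.inl (Or.inr (Or.inr rfl)), Or.inr (Or.inl rfl),
      Or.inr (Or.inr rfl)]

/-- the hub sees both extreme vertices of the row -/
theorem CH.p3 (ur : G.Γ.Adj u (G.xr z)) (uf : G.Γ.Adj u (tr G.w (G.xl z))) (he : e ∈ G.L 0)
    (hx : x ∈ G.L 0) (l1 : G.ρ (G.xr z) ≤ G.ρ e) (l2 : G.ρ e < G.ρ (G.xl z) + G.nn 0)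
    (l3 : G.ρ (G.xr z) ≤ G.ρ x) (l4 : G.ρ x < G.ρ (G.xl z) + G.nn 0) :
    FreeR G ld {s(z, G.xr z), s(e, G.nx e), s(x, G.nx x), ea G z} := by
  have far := h.far
  have pw := h.pw.2
  obtain ⟨k, ka⟩ := h.eg_a
  have b := h.row h.tq.feet.2.1.1 le_rfl (by omega)
  refine h.freeR (h.hu2 (A := {s(z, G.xr z)}) (B := {s(e, G.nx e), s(x, G.nx x)}) (C := {ea G z})
    b.1 ur h.pw.1 uf (by omega) (tw_one _) (tw_pair _ _) ?_ ?_ ?_) (tw_one _) ?_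
  · rintro _ rfl
    exact ⟨_, _, h.eg_d, b.2.ge⟩
  · rintro _ (rfl | rfl)
    exacts [⟨_, _, h.eg_r he l1 l2, Or.inr (by omega), by omega⟩,
      ⟨_, _, h.eg_r hx l3 l4, Or.inr (by omega), by omega⟩]
  · rintro _ rfl
    exact ⟨_, _, ka, pw.le⟩
  · rintro _ (rfl | rfl | rfl | rfl)
    exacts [Or.inl (Or.inl rfl), Or.inl (Or.inr (Or.inl rfl)), Or.inl (Or.inr (Or.inr rfl)),
      Or.inr rfl]

/-- the hub sees the last vertex of the row -/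
theorem CH.p4 (uf : G.Γ.Adj u (tr G.w (G.xl z))) (hx : x ∈ G.L 0) (l3 : G.ρ (G.xr z) < G.ρ x)
    (l4 : G.ρ x < G.ρ (G.xl z) + G.nn 0) :
    FreeR G ld {s(G.xr z, G.nx (G.xr z)), s(x, G.nx x), ea G z} := by
  have far := h.far
  have pw := h.pw.2
  obtain ⟨k, ka⟩ := h.eg_a
  refine h.freeR (h.hu1 (B := {s(G.xr z, G.nx (G.xr z)), s(x, G.nx x)}) (C := {ea G z}) h.pw.1 uf
    (tw_pair _ _) ?_ ?_) (tw_one _) ?_
  · rintro _ (rfl | rfl)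
    exacts [⟨_, _, h.eg_r h.tq.feet.2.1.1 le_rfl (by omega), by omega⟩,
      ⟨_, _, h.eg_r hx l3.le l4, by omega⟩]
  · rintro _ rfl
    exact ⟨_, _, ka, pw.le⟩
  · rintro _ (rfl | rfl | rfl)
    exacts [Or.inl (Or.inr (Or.inl rfl)), Or.inl (Or.inr (Or.inr rfl)), Or.inr rfl]

theorem CH.hf (n : ¬ G.Γ.Adj u (G.xr z)) : HF G v z := by
  rintro s s' - - ⟨w, m, a, b⟩
  rcases h.pa w a _ h.tq.feet.2.1.1 b (Or.inl h.tq.feet.2.1.2) with rfl | rfl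
  · exact m.elim (fun m => m.1.2 h.tq.zV) fun m => h.tq.st.tf.l_nv m.1 h.tq.zV
  · exact n b

variable [Fintype J] (s : FP2.Sl G.Γ G.η)
include s

omit s in
theorem CH.ph : ∃ φ, FK.PH (FT G) G.Pr φ := FK.ph_ex h.tq.st.lay h.tq.st.tf.pne

/-- the case of one flow -/
theorem CH.c1 (H : S_H1) (n : ¬ G.Γ.Adj u ld) (hf : f ∈ G.L 0) (uf : G.Γ.Adj u f)
    (l : G.ρ (G.xr z) < G.ρ f) : ∃ c, Col1 G.Γ ∅ c :=
  let ⟨φ, k⟩ := h.ph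
  H J G φ v z la lb lc ld h.tq s k ⟨h.wr, h.p1 n hf uf l⟩

/-- the case of two flows -/
theorem CH.c2 (H : S_H2) (y1 : G.an (G.nx (G.nx la)) = z) (hf : f ∈ G.L 0) (uf : G.Γ.Adj u f)
    (l : G.ρ (G.xr z) < G.ρ f) (k : G.ρ f < G.ρ (G.xl z) + G.nn 0 ∨ G.Γ.Adj u (G.xr z)) :
    ∃ c, Col1 G.Γ ∅ c := by
  obtain ⟨φ, hφ⟩ := h.ph
  have far := h.far
  refine H J G φ v z la lb lc ld h.tq s hφ ⟨h.wr, y1, ?_⟩
  by_cases c : G.ρ f < G.ρ (G.xl z) + G.nn 0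
  · exact ⟨G.ρ f, l, c, fun e he x hx => h.p2 hf uf he hx⟩
  · have a := h.foot hf uf
    obtain rfl : f = tr G.w (G.xl z) := h.tq.rows.inj hf h.pw.1 (by rw [h.pw.2]; omega)
    exact ⟨G.ρ (G.xr z) + 1, by omega, by omega, fun e he x hx l1 l2 l3 l4 =>
      h.p3 (k.resolve_left c) uf he hx l1 (by omega) (by omega) l4⟩

/-- two spikes -/
theorem CH.c3 (H : S_HO) (y1 : G.an (G.nx (G.nx la)) = z) (sp : G.xr z = G.xl z)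
    (uf : G.Γ.Adj u (tr G.w (G.xl z))) (n : ¬ G.Γ.Adj u (G.xr z)) : ∃ c, Col1 G.Γ ∅ c :=
  let ⟨φ, k⟩ := h.ph
  H J G φ v z la lb lc ld h.tq s k ⟨h.wr, y1, sp, h.hf n, fun _ hx => h.p4 uf hx⟩

end

end Pool.Agent.P.MP_08fd93_co.FH
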