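import Pool.Agent.P.MP_08fd93_co.FH.H3
import Pool.Agent.P.MP_08fd93_co.FE.LZ4
import Pool.Agent.P.MP_08fd93_co.FR.Ear0

/-! The hub under the last child of the head in the frame of a long second root. -/

set_option autoImplicit false

namespace Pool.Agent.P.MP_08fd93_co.FH

open OV FZ FK FE FN

variable {J : Type} {Γ : SimpleGraph (Vx J)} {η : ℤ × ℤ →+ ℤ} {G : VD J} {T : FP2.TD J}
  {v z u p l r y f t : Vx J} {g : Vx J → ℤ} {an : Vx J → Vx J}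

/-- The frame of the long second root `z`; the top edge `r` ends at a child of the next translate
of `z`, and `u` lies under it. -/
structure LH (G : VD J) (v z u l r : Vx J) : Prop where
  zr : ZR G v z l r
  sl : FP2.Sl G.Γ G.η
  ah : G.an (G.nx r) = tr G.w z
  uI : u ∈ G.In r (G.nx r)
  uv : G.Γ.Adj u v
  uh : G.Γ.Adj u (G.nx r)
  hz : ∀ y ∈ G.L 0, G.Γ.Adj (G.nx r) y → y.1 = z.1
  ft : ∃ f ∈ G.L 0, G.Γ.Adj u f ∧ f.1 ≠ z.1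

/-- the hub does not see the left end of the top -/
def S_M1 : Prop := ∀ (J : Type) [Fintype J] (G : VD J) (v z u l r : Vx J),
  LH G v z u l r → ¬ G.Γ.Adj u r → ∃ c, Col1 G.Γ ∅ c

/-- both tails are long -/
def S_M3 : Prop := ∀ (J : Type) [Fintype J] (G : VD J) (v z u l r : Vx J),
  LH G v z u l r → G.Γ.Adj u r → G.an (G.nx (G.nx r)) = tr G.w z →
    (∃ t ∈ G.L 0, ∃ f ∈ G.L 0, G.Γ.Adj u t ∧ G.Γ.Adj u f ∧ t.1 ≠ z.1 ∧ f.1 ≠ z.1 ∧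
      G.ρ t + 1 < G.ρ f) → ∃ c, Col1 G.Γ ∅ c

theorem frz_mir (H : FrZ Γ η v z g an G) : FrZ Γ η v z g an (FR.mir G) :=
  ⟨FR.mir_vf H.vf, H.eΓ, H.eη, H.ef, H.ea, H.eP, H.eK, H.eT, H.eV, H.eb, fun a => (H.ex a).symm,
    H.z0⟩

theorem frz_pr (H : FrZ Γ η v z g an G) (hy : y ∈ G.L 1) : y ∈ G.Pr := (H.eP y).2 fun c => by
  have R := H.vf.toRows
  have := R.uw.lf _ _ hy
  rw [orb_eq c, R.wp.per, R.uw.lf _ _ H.z0, zero_add] at this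
  exact Int.not_even_iff_odd.2 odd_one (this ▸ R.wp.ev _)

theorem frz_x (H : FrZ Γ η v z g an G) : G.xl v = z ∧ G.xr v = z := by
  simpa only [tr_zero] using H.ex 0

theorem zr_of [Fintype J] (H : FrZ Γ η v z g an G) (h : FP2.TR Γ η v z p g)
    (A : FP2.An2 Γ v z g an) (hr : r ∈ G.L 1) (ar : G.an r = v) (ne : G.an (G.nx r) ≠ v) :
    ∃ l, ZR G v z l r := by
  have W := H.sw h
  have R := H.vf.toRows
  obtain ⟨s, s1, ps, l1, l2⟩ := H.vf.far_lo 1 (min (G.ρ r) (G.ρ z))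
  obtain ⟨-, e, e1, -, -, -, e2, e3⟩ := W.last s1 ps hr (frz_pr H hr) (by omega) fun c => by
    rw [c, ar, (frz_x H).2] at l2
    omega
  rw [n2_p (frz_pr H (R.nx_mem e1).1), ar] at e3
  refine ⟨e, W, H.eK, H.eP, H.ef ▸ rf_v h, (frz_x H).1, ⟨e1, e3, ar ▸ e2⟩, ⟨hr, ar, ne⟩,
    fun j => (h.toSl.n4 R H.eΓ j).trans' (by omega), ?_⟩
  obtain ⟨y1, -, y3⟩ := pv_mem W.lay H.z0
  set y := pv (FL G) z
  have a : G.Γ.Adj y z := y3 ▸ (R.nx_mem y1).2.2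
  have fy : rais g v y = 0 := H.ef ▸ R.uw.lf _ _ y1
  have t1 : FP2.TR Γ η v z y g := ⟨h.toSl, h.vz, H.eΓ ▸ a.symm,
    fun c => H.vf.l_nk y1 ((H.eK y).2 (c ▸ rfl)), h.ht, fy ▸ rais_ge y, h.nb⟩
  obtain ⟨n, c, -, k, -, -, k2⟩ := z_child t1 A
  have key : ∀ i ≤ n, (ftL G)^[i] y = an^[i] y ∧ an^[i] y ∉ FP2.Kt v z := by
    intro i
    induction i with
    | zero => exact fun _ => ⟨rfl, t1.pk⟩
    | succ i ih =>
      intro hi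
      have m := A.row _ (k i hi)
      rw [Function.iterate_succ_apply', Function.iterate_succ_apply', (ih (by omega)).1]
      refine ⟨?_, m⟩
      rw [ftL, H.ea]
      exact (H.vf.xo _ fun q => m (Or.inl ((H.eK _).1 q))).1
  refine ⟨n, fun i hi => ?_, ?_⟩
  · rw [(key i hi).1]
    exact (H.eP _).2 fun q => (key i hi).2 (Or.inr q)
  · rw [(key n le_rfl).1, H.eK, H.ea, ← k2, A.atr]
    rfl

section

variable (h : HC T v z u p r g) (H : FrZ T.Γ T.η v z g T.an G)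
include h H

theorem HC.l1 : G.L 1 = T.L 1 := by
  show LL G.Γ G.f 1 = LL T.Γ T.f 1
  rw [H.eΓ, H.ef, h.F.ef, ll_odd h.t (by decide)]

theorem HC.uS : u ∈ G.S 1 := by
  have R := H.vf.toRows
  have uz : u ≠ z := fun c => h.uI.1.2 (c ▸ h.zV)
  have n : u.1 ≠ v.1 := h.t.toSl.nl _ _ h.uv
  have g1 := h.t.nb u h.uv.symm uz
  have g2 := h.t.lip h.uv.symm
  have fu : G.f u = 1 := by
    rw [h.t.gv] at g2
    rw [H.ef, rais_n n]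
    omega
  have m : T.nx r ∈ G.L 1 := h.l1 H ▸ (h.F.tf.toRows.nx_mem h.r1).1
  refine ⟨⟨R.uw.cl 1 _ (R.l_u m) u (H.eΓ ▸ h.uh.symm) fu.ge, ?_⟩, fun c => n ((H.eK u).1 c)⟩
  rintro (c | c)
  · exact h.u_nl (h.l1 H ▸ c) rfl
  · have := R.uw.ge _ _ c
    omega

theorem HC.lfoot (hf : f ∈ T.L 0) (a : T.Γ.Adj u f) : f ∈ G.L 0 ∧ f.1 ≠ z.1 := by
  have n : f ∉ FP2.Kt v z := h.F.eV ▸ h.F.tf.l_nv hf
  have e := h.F.tf.uw.lf _ _ hf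
  rw [h.F.ef, FP2.rz_n n] at e
  refine ⟨H.vf.uw.lan 1 u (h.uS H).1.1 f (H.eΓ ▸ a) ?_, fun c => n (Or.inr c)⟩
  rw [H.ef, rais_n fun c => n (Or.inl c)]
  omega

theorem HC.lh [Fintype J] (e : G.nx r = T.nx r) : G.w = T.w ∧ ∃ l, LH G v z u l r := by
  have R := H.vf.toRows
  have RT := h.F.tf.toRows
  have hr : r ∈ G.L 1 := h.l1 H ▸ h.r1
  obtain ⟨n1, n2, -⟩ := R.nx_mem hr
  have ar : G.an r = v := H.ea ▸ h.aR
  have ah : G.an (G.nx r) = tr T.w z := by rw [H.ea, e, h.ah]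
  have nk : G.an (G.nx r) ∉ G.K := fun c => h.t.ne1 (by rw [← (H.eK _).1 c, ah]; rfl)
  have vK : v ∈ G.K := (H.eK v).2 rfl
  have ne : G.an (G.nx r) ≠ v := fun c => nk (c ▸ vK)
  have pr := frz_pr H hr
  have pn := frz_pr H n1
  have ew : G.w = T.w := by
    obtain ⟨k, hk⟩ := (R.wp.ker T.w).1 (H.eη ▸ by simpa using RT.eta_w 1)
    obtain ⟨k', hk'⟩ := (RT.wp.ker G.w).1 (H.eη ▸ by simpa using R.eta_w 1)
    have m := (H.vf.mono' hr pr n1 pn (by omega)).1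
    rw [ar, (frz_x H).1, (H.vf.xo _ nk).1, ah, hk, (R.rho_lw k H.z0).2] at m
    have n0 := R.n2 0
    have : (k' * k - 1) • G.w = 0 := by rw [sub_smul, mul_smul, ← hk, ← hk', one_smul, sub_self]
    rcases Int.eq_one_or_neg_one_of_mul_eq_one' (sub_eq_zero.1
      ((smul_eq_zero.1 this).resolve_right R.wp.w0)) with c | c
    · rw [hk, c.2, one_smul]
    · rw [c.2] at m
      omega
  obtain ⟨l, zr⟩ := zr_of H h.t h.a hr ar ne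
  have uS := h.uS H
  have uv : G.Γ.Adj u v := H.eΓ ▸ h.uv
  have uh : G.Γ.Adj u (G.nx r) := H.eΓ ▸ e ▸ h.uh
  obtain ⟨f, hf, uf, -⟩ := h.ft
  refine ⟨ew, l, zr, H.eΓ ▸ H.eη ▸ h.t.toSl, ew ▸ ah, ?_, uv, uh, fun y hy a => ?_,
    f, (h.lfoot H hf uf).1, H.eΓ ▸ uf, (h.lfoot H hf uf).2⟩
  · rw [VD.In, R.uw.lf _ _ hr]
    refine ⟨uS, fun x hx => ⟨fun c => H.vf.side hr pr (Or.inr rfl) uS hx (cpv_nb uh) c
      (Or.inr (Or.inl ⟨n1, by omega⟩)), fun c => H.vf.side n1 pn (Or.inl rfl) uS (cpv_nb uv) hx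
        (Or.inr (Or.inr ⟨vK, zr.fv, t_empty nk ▸ id, not_le.1 fun q => ne ?_⟩)) c⟩⟩
    obtain ⟨c1, c2, c3⟩ := H.vf.kc v vK
    rw [zr.fv] at c1
    exact (H.vf.btw hr pr n1 pn c1 c2 (by omega) q (ar.trans (zr.sw.t_mem c3).symm)
      (ar ▸ vK)).trans ar
  · by_contra c
    have n : y ∉ FP2.Kt v z := fun k => k.elim (fun k => H.vf.l_nk hy ((H.eK y).2 k)) c
    have fy := R.uw.lf _ _ hy
    rw [H.ef, rais_n fun k => n (Or.inl k)] at fy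
    have m := (RT.nx_mem h.r1).1
    rw [e, H.eΓ] at a
    refine (h.F.tf.pure 1 _ m (h.F.eP ▸ trivial) (h.ah ▸ h.F.tf.vtr _ _ h.zV)).1 y
      (RT.uw.lan 1 _ (RT.l_u m) y a ?_) a
    rw [h.F.ef, FP2.rz_n n]
    omega

end

theorem HC.frz [Fintype J] (h : HC T v z u p r g) (lg : T.ρ (T.xl z) + 1 < T.ρ (T.xr z)) :
    ∃ G, FrZ T.Γ T.η v z g T.an G ∧ G.nx r = T.nx r := by
  have RT := h.F.tf.toRows
  obtain ⟨⟨a1, a2⟩, ⟨a3, a4⟩, -⟩ := h.feet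
  have re : ∀ q ∈ T.L 0, T.Γ.Adj z q → FP2.TR T.Γ T.η v z q g := fun q hq a =>
    ⟨h.t.toSl, h.t.vz, a, fun c => h.F.tf.l_nv hq (c ▸ h.vV), h.t.ht,
      (FP2.rz_ge q).trans (h.F.ef ▸ RT.uw.lf _ _ hq).le, h.t.nb⟩
  obtain ⟨G, H⟩ := exists_frZ RT.nj ⟨re _ a1 a2, re _ a3 a4, fun c => by rw [c] at lg; omega,
    fun c => by have := (RT.adj_iff a1 a3).1 c; omega⟩ h.a
  have R := H.vf.toRows
  obtain ⟨n1, -, n3⟩ := RT.nx_mem h.r1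
  have hr : r ∈ G.L 1 := h.l1 H ▸ h.r1
  have hn : T.nx r ∈ G.L 1 := h.l1 H ▸ n1
  rcases (R.adj_iff hr hn).1 (H.eΓ ▸ n3) with c | c
  · obtain ⟨m1, m2, -⟩ := R.nx_mem hr
    exact ⟨G, H, R.inj m1 hn (by omega)⟩
  · refine ⟨_, frz_mir H, ?_⟩
    rw [FR.mir_nx, R.uw.lf _ _ hr, c, add_sub_cancel_right, R.l_rho hn]

theorem l1_of (H : S_M1) : S_L1 := by
  intro J _ T v z u p r g h lg n
  obtain ⟨G, F, e⟩ := h.frz lg
  obtain ⟨-, l, k⟩ := h.lh F e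
  exact F.eΓ ▸ H J G v z u l r k (F.eΓ.symm ▸ n)

theorem l3_of (H : S_M3) : S_L3 := by
  rintro J _ T v z u p r g h lg n a ⟨t, ht, f, hf, ut, uf, o⟩
  obtain ⟨G, F, e⟩ := h.frz lg
  obtain ⟨ew, l, k⟩ := h.lh F e
  have R := F.vf.toRows
  have RT := h.F.tf.toRows
  obtain ⟨n1, n2, -⟩ := R.nx_mem k.zr.hr.1
  obtain ⟨m1, m2, m3⟩ := R.nx_mem n1
  obtain ⟨i1, i2, -⟩ := RT.nx_mem h.r1
  obtain ⟨j1, j2, -⟩ := RT.nx_mem i1
  have e2 : G.nx (G.nx r) = T.nx (T.nx r) := by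
    have m1' : G.nx (G.nx r) ∈ T.L 1 := h.l1 F ▸ m1
    rw [F.eΓ] at m3
    rcases (RT.adj_iff (e ▸ i1) m1').1 m3 with c | c
    · exact RT.inj m1' j1 (by rw [c, j2, e])
    · rw [RT.inj m1' h.r1 (by rw [e] at c; rw [e]; omega)] at m2
      omega
  obtain ⟨t1, t2⟩ := h.lfoot F ht ut
  obtain ⟨f1, f2⟩ := h.lfoot F hf uf
  have na : ¬ G.Γ.Adj t f := fun c => by
    have := (RT.adj_iff ht hf).1 (F.eΓ ▸ c)
    omega
  have ne : G.ρ t ≠ G.ρ f := fun c => by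
    rw [R.inj t1 f1 c] at o
    omega
  rw [R.adj_iff t1 f1] at na
  rw [← F.eΓ] at ut uf n ⊢
  refine H J G v z u l r k n (by rw [e2, F.ea, a, ew]) ?_
  by_cases c : G.ρ t < G.ρ f
  exacts [⟨t, t1, f, f1, ut, uf, t2, f2, by omega⟩, ⟨f, f1, t, t1, uf, ut, f2, t2, by omega⟩]

end Pool.Agent.P.MP_08fd93_co.FH
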