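import Pool.Agent.P.MP_08fd93_co.FP.P0
import Pool.Agent.P.MP_08fd93_co.FH.H1

/-! Short tails under one top edge: the statements of the plans. -/

set_option autoImplicit false

namespace Pool.Agent.P.MP_08fd93_co.FH

open OV FB FP2 FP

variable {J : Type}

/-- The edges `S` are strict if the right end of the top edge `e` has a token. -/
def FreeR (G : TD J) (e : Vx J) (S : Set (Sym2 (Vx J))) : Prop :=
  ∃ X Q, OutX G.Γ (Bd G e) S X Q fun _ A => G.nx e ∈ A

/-- The cell under `ld` runs from the head to the next neck. -/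
structure Wr (G : TD J) (z la lc ld : Vx J) : Prop where
  ec : lc = ld
  ed : ld = tr G.w la
  eh : G.an (G.nx la) = z

/-- The edge from the next neck to its left foot. -/
def ea (G : TD J) (z : Vx J) : Sym2 (Vx J) := s(tr G.w z, tr G.w (G.xl z))

/-- one flow -/
def S_H1 : Prop := Md fun G _ _ z la _ lc ld => Wr G z la lc ld ∧
  Free G ld {s(z, G.xr z), s(G.xr z, G.nx (G.xr z)), ea G z} ∧
  ∃ y ∈ G.L 0, G.nx y = tr G.w (G.xl z) ∧ Free G ld {s(z, G.xr z), s(y, G.nx y)}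

/-- two flows, one pin on each side of `f` -/
def S_H2 : Prop := Md fun G _ _ z la _ lc ld => Wr G z la lc ld ∧ G.an (G.nx (G.nx la)) = z ∧
  ∃ f : ℤ, G.ρ (G.xr z) < f ∧ f < G.ρ (G.xl z) + G.nn 0 ∧ ∀ e ∈ G.L 0, ∀ x ∈ G.L 0,
    G.ρ (G.xr z) ≤ G.ρ e → G.ρ e < f → f ≤ G.ρ x → G.ρ x < G.ρ (G.xl z) + G.nn 0 →
      FreeR G ld {s(z, G.xr z), s(e, G.nx e), s(x, G.nx x), ea G z}

/-- two flows, the neck is a spike and pays the edge to its foot -/
def S_HO : Prop := Md fun G _ v z la _ lc ld => Wr G z la lc ld ∧ G.an (G.nx (G.nx la)) = z ∧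
  G.xr z = G.xl z ∧ HF G v z ∧ ∀ x ∈ G.L 0, G.ρ (G.xr z) < G.ρ x →
    G.ρ x < G.ρ (G.xl z) + G.nn 0 →
      FreeR G ld {s(G.xr z, G.nx (G.xr z)), s(x, G.nx x), ea G z}

end Pool.Agent.P.MP_08fd93_co.FH
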